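import Mathlib
import Pool.Agent.R776.LI.Final

set_option autoImplicit false

open MeasureTheory ProbabilityTheory Filter Topology

namespace Pool.Agent.Results.MP_6ef346_pr.LISRatio

/-- `lisLength n x`: the largest `k` for which some indices `i_1 < … < i_k` satisfy
`x_{i_1} < … < x_{i_k}`, for a finite sequence `x` of `n` numbers. -/
noncomputable def lisLength (n : ℕ) (x : Fin n → ℕ) : ℕ :=
  sSup {k : ℕ | ∃ i : Fin k → Fin n, StrictMono i ∧ StrictMono (fun j => x (i j))}

/-- `fInf p t = inf_{x ≥ 0} (x + ∑_i t p_i / (t p_i + x))`. The sum is taken in `[0, ∞]`; for `x = 0`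
its terms are `1` where `p_i > 0` and `0` where `p_i = 0`. -/
noncomputable def fInf (p : ℕ → ℝ) (t : ℝ) : ℝ :=
  (⨅ x : {x : ℝ // 0 ≤ x}, (ENNReal.ofReal (x : ℝ)
    + ∑' i, ENNReal.ofReal (t * p i / (t * p i + (x : ℝ))))).toReal

/-- For i.i.d. random variables `X 0, X 1, …` with values in the natural numbers and any law `p`
(the laws on the positive integers are those with `p 0 = 0`), the length `L_n` of the longest
strictly increasing subsequence of `X 0, …, X (n-1)` satisfies `L_n / f_n → 1` almost surely. -/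
theorem result {Ω : Type*} [MeasurableSpace Ω] (μ : Measure Ω) [IsProbabilityMeasure μ]
    (X : ℕ → Ω → ℕ) (hX : ∀ k, Measurable (X k)) (hind : iIndepFun X μ)
    (p : ℕ → ℝ) (hp : ∀ k i, μ.real {ω | X k ω = i} = p i) :
    ∀ᵐ ω ∂μ, Tendsto (fun n : ℕ => (lisLength n (fun k : Fin n => X k ω) : ℝ) / fInf p n)
      atTop (𝓝 1) :=
  R776.LI.main μ X hX hind p hp

end Pool.Agent.Results.MP_6ef346_pr.LISRatio
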